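import Mathlib

set_option autoImplicit false

namespace Pool.Agent.Lib.MP_04f01b_co

/-- A (central) hyperplane arrangement in `ℝ^d`: a finite set of linear hyperplanes, that is, of
linear subspaces of codimension one. -/
structure Arrangement (d : ℕ) where
  /-- the hyperplanes -/
  hyps : Finset (Submodule ℝ (Fin d → ℝ))
  /-- each of them has codimension one -/
  codim_eq_one : ∀ H ∈ hyps, Module.finrank ℝ ((Fin d → ℝ) ⧸ H) = 1

namespace Arrangement

variable {d : ℕ} (A : Arrangement d)

/-- The rank: the codimension of the intersection of all the hyperplanes. -/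
noncomputable def rank : ℕ := Module.finrank ℝ ((Fin d → ℝ) ⧸ (⨅ H ∈ A.hyps, H))

/-- The complement of the union of the hyperplanes. -/
def complement : Set (Fin d → ℝ) := {x | ∀ H ∈ A.hyps, x ∉ H}

/-- The chambers: the connected components of the complement. -/
abbrev Chamber : Type := ConnectedComponents A.complement

/-- The hyperplane `H` separates the chambers `C` and `C'`: every line segment from a point of `C`
to a point of `C'` meets `H`. -/
def Separates (H : Submodule ℝ (Fin d → ℝ)) (C C' : A.Chamber) : Prop :=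
  ∀ x y : A.complement, (x : A.Chamber) = C → (y : A.Chamber) = C' →
    ∃ z ∈ segment ℝ (x : Fin d → ℝ) (y : Fin d → ℝ), z ∈ H

/-- The tope graph: the vertices are the chambers, two of them being adjacent exactly when one
hyperplane of the arrangement separates them. -/
def topeGraph : SimpleGraph A.Chamber where
  Adj C C' := ∃! H, H ∈ A.hyps ∧ A.Separates H C C'
  symm := ⟨fun C C' h => by
    obtain ⟨H, ⟨hH, hs⟩, hu⟩ := h
    have key : ∀ H' C₁ C₂, A.Separates H' C₁ C₂ → A.Separates H' C₂ C₁ := by
      intro H' C₁ C₂ h x y hx hy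
      rw [segment_symm]
      exact h y x hy hx
    exact ⟨H, ⟨hH, key _ _ _ hs⟩, fun H' hH' => hu H' ⟨hH'.1, key _ _ _ hH'.2⟩⟩⟩
  loopless := ⟨fun C h => by
    obtain ⟨H, ⟨hH, hs⟩, -⟩ := h
    obtain ⟨x, hx⟩ := ConnectedComponents.surjective_coe C
    obtain ⟨z, hz, hzH⟩ := hs x x hx hx
    rw [segment_same, Set.mem_singleton_iff] at hz
    subst hz
    exact x.2 H hH hzH⟩

/-- The arrangement is reducible if `ℝ^d` splits as a direct sum of two nonzero subspaces such that
each hyperplane of the arrangement contains one of the two (so the arrangement is a product of two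
arrangements). It is irreducible otherwise. -/
def IsIrreducible : Prop :=
  ¬ ∃ U W : Submodule ℝ (Fin d → ℝ), IsCompl U W ∧ U ≠ ⊥ ∧ W ≠ ⊥ ∧
    ∀ H ∈ A.hyps, U ≤ H ∨ W ≤ H

end Arrangement

/-- A simple graph is vertex-transitive if its automorphism group is transitive on the
vertices. -/
def IsVertexTransitive {V : Type} (G : SimpleGraph V) : Prop :=
  ∀ x y : V, ∃ φ : G ≃g G, φ x = y

/-- The matrix `Z_G(q)` with entries `q ^ d(x,y)` over the field of rational functions. -/
noncomputable def zMatrix {V : Type} (G : SimpleGraph V) : Matrix V V (RatFunc ℚ) :=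
  Matrix.of fun x y => (RatFunc.X : RatFunc ℚ) ^ G.dist x y

/-- The magnitude of a finite graph: the sum of all the entries of the inverse of `Z_G(q)`. -/
noncomputable def magnitude {V : Type} [Finite V] (G : SimpleGraph V) : RatFunc ℚ :=
  letI := Fintype.ofFinite V
  letI := Classical.decEq V
  ∑ x, ∑ y, (zMatrix G)⁻¹ x y

section Finite

variable {d : ℕ} (A : Arrangement d)

/-- Each hyperplane is the kernel of a linear functional. -/
theorem exists_functional {H : Submodule ℝ (Fin d → ℝ)}
    (h : Module.finrank ℝ ((Fin d → ℝ) ⧸ H) = 1) :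
    ∃ φ : (Fin d → ℝ) →ₗ[ℝ] ℝ, LinearMap.ker φ = H := by
  have e : ((Fin d → ℝ) ⧸ H) ≃ₗ[ℝ] ℝ :=
    LinearEquiv.ofFinrankEq _ _ (by rw [h, Module.finrank_self])
  refine ⟨e.toLinearMap ∘ₗ H.mkQ, ?_⟩
  rw [LinearEquiv.ker_comp, Submodule.ker_mkQ]

/-- Two points of the complement on the same side of every hyperplane lie in the same chamber. -/
theorem same_component {x y : A.complement}
    (h : ∀ H ∈ A.hyps, ∃ φ : (Fin d → ℝ) →ₗ[ℝ] ℝ, LinearMap.ker φ = H ∧
      (0 < φ x ↔ 0 < φ y)) :
    (x : A.Chamber) = (y : A.Chamber) := by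
  have hseg : ∀ t : unitInterval,
      (AffineMap.lineMap (x : Fin d → ℝ) (y : Fin d → ℝ) (t : ℝ) : Fin d → ℝ) ∈
        A.complement := by
    intro t H hH hmem
    obtain ⟨φ, hφ, hs⟩ := h H hH
    rw [← hφ, LinearMap.mem_ker, AffineMap.lineMap_apply_module, map_add, map_smul, map_smul,
      smul_eq_mul, smul_eq_mul] at hmem
    have hx : φ x ≠ 0 := by
      intro h0
      exact x.2 H hH (by rw [← hφ, LinearMap.mem_ker]; exact h0)
    have hy : φ y ≠ 0 := by
      intro h0
      exact y.2 H hH (by rw [← hφ, LinearMap.mem_ker]; exact h0)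
    have ht0 : (0 : ℝ) ≤ t := t.2.1
    have ht1 : (t : ℝ) ≤ 1 := t.2.2
    by_cases hp : 0 < φ x
    · have hq := hs.1 hp
      have h1 : 0 ≤ (1 - (t : ℝ)) * φ x := mul_nonneg (by linarith) hp.le
      have h2 : 0 ≤ (t : ℝ) * φ y := mul_nonneg ht0 hq.le
      have h3 : (1 - (t : ℝ)) * φ x = 0 := by linarith
      have h4 : (t : ℝ) * φ y = 0 := by linarith
      rcases mul_eq_zero.1 h3 with h | h
      · rcases mul_eq_zero.1 h4 with h' | h'
        · linarith
        · exact hy h'
      · exact hx h
    · have hq : ¬ 0 < φ y := fun h => hp (hs.2 h)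
      have hx' : φ x < 0 := lt_of_le_of_ne (not_lt.1 hp) hx
      have hy' : φ y < 0 := lt_of_le_of_ne (not_lt.1 hq) hy
      have h1 : (1 - (t : ℝ)) * φ x ≤ 0 := mul_nonpos_of_nonneg_of_nonpos (by linarith) hx'.le
      have h2 : (t : ℝ) * φ y ≤ 0 := mul_nonpos_of_nonneg_of_nonpos ht0 hy'.le
      have h3 : (1 - (t : ℝ)) * φ x = 0 := by linarith
      have h4 : (t : ℝ) * φ y = 0 := by linarith
      rcases mul_eq_zero.1 h3 with h | h
      · rcases mul_eq_zero.1 h4 with h' | h'
        · linarith
        · exact hy h'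
      · exact hx h
  let f : unitInterval → A.complement := fun t => ⟨AffineMap.lineMap (x : Fin d → ℝ) y (t : ℝ),
    hseg t⟩
  have hf : Continuous f := by
    refine Continuous.subtype_mk ?_ _
    have : Continuous fun t : ℝ => (AffineMap.lineMap (x : Fin d → ℝ) (y : Fin d → ℝ) t :
        Fin d → ℝ) := AffineMap.lineMap_continuous
    exact this.comp continuous_subtype_val
  have h0 : f 0 = x := by
    apply Subtype.ext
    simp [f]
  have h1 : f 1 = y := by
    apply Subtype.ext
    simp [f]
  have hc := isPreconnected_range hf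
  rw [← h0, ← h1]
  rw [ConnectedComponents.coe_eq_coe']
  exact hc.subset_connectedComponent (Set.mem_range_self _) (Set.mem_range_self _)

/-- An arrangement has finitely many chambers. -/
instance finite_chamber : Finite A.Chamber := by
  classical
  choose! φ hφ using fun (H : Submodule ℝ (Fin d → ℝ)) (hH : H ∈ A.hyps) =>
    exists_functional (A.codim_eq_one H hH)
  let r : A.Chamber → A.complement :=
    Function.surjInv ConnectedComponents.surjective_coe
  have hr : ∀ C : A.Chamber, ((r C : A.complement) : A.Chamber) = C :=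
    Function.surjInv_eq _
  let σ : A.Chamber → (A.hyps → Prop) := fun C H => 0 < φ H.1 (r C)
  have hσ : Function.Injective σ := by
    intro C C' h
    rw [← hr C, ← hr C']
    apply same_component
    intro H hH
    refine ⟨φ H, hφ H hH, ?_⟩
    have := congrFun h ⟨H, hH⟩
    simpa [σ] using this
  exact Finite.of_injective σ hσ

end Finite

/-- The magnitude of the tope graph of an arrangement. -/
noncomputable def Arrangement.mag {d : ℕ} (A : Arrangement d) : RatFunc ℚ :=
  magnitude A.topeGraph

end Pool.Agent.Lib.MP_04f01b_co
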