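import Mathlib

set_option autoImplicit false
set_option maxRecDepth 100000

namespace Pool.Agent.Lib.MP_04f01b_co.Model

/-- Bit `k` of the code `a`: it records whether the `k`-th functional is positive. -/
def bit (a : Fin 64) (k : ℕ) : Bool := a.val.testBit k

/-- The codes of the realizable sign vectors. -/
def good (a : Fin 64) : Bool :=
  if bit a 4 then (if bit a 5 then (bit a 0 || bit a 1) else (bit a 2 || bit a 3))
  else (if bit a 5 then !(bit a 2 && bit a 3) else !(bit a 0 && bit a 1))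

/-- Number of positions in which two codes differ. -/
def ham (a b : Fin 64) : ℕ :=
  (bit a 0 ^^ bit b 0).toNat + (bit a 1 ^^ bit b 1).toNat + (bit a 2 ^^ bit b 2).toNat +
    (bit a 3 ^^ bit b 3).toNat + (bit a 4 ^^ bit b 4).toNat + (bit a 5 ^^ bit b 5).toNat

/-- The class of a code. -/
def cls (a : Fin 64) : ℕ :=
  if bit a 4 == bit a 5 then
    (if bit a 0 == bit a 1 then (if bit a 2 == bit a 3 then 1 else 3)
      else (if bit a 2 == bit a 3 then 0 else 2))
  else
    (if bit a 2 == bit a 3 then (if bit a 0 == bit a 1 then 1 else 3)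
      else (if bit a 0 == bit a 1 then 0 else 2))

/-- Coefficients of the numerators of the weights. -/
def wc (c m : ℕ) : ℤ :=
  match c, m with
  | 0, 0 => 1 | 0, 1 => 1 | 0, 2 => 1 | 0, 3 => 1 | 0, 4 => 1
  | 1, 0 => 1 | 1, 4 => 1
  | 2, 0 => 1 | 2, 2 => -1 | 2, 4 => 1
  | 3, 0 => 1 | 3, 1 => -1 | 3, 2 => -2 | 3, 3 => -1 | 3, 4 => 1
  | _, _ => 0

/-- Coefficients of the common denominator `(1+q)^4 (1+q+q^2) (1+q^4)`. -/
def dc (m : ℕ) : ℤ :=
  match m with
  | 0 => 1 | 1 => 5 | 2 => 11 | 3 => 14 | 4 => 12 | 5 => 10 | 6 => 12 | 7 => 14 | 8 => 11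
  | 9 => 5 | 10 => 1
  | _ => 0

theorem weight_check : ∀ a : Fin 64, good a = true → ∀ m : Fin 11,
    (∑ b : Fin 64, if good b = true ∧ ham a b ≤ m.val then wc (cls b) (m.val - ham a b) else 0) =
      dc m.val := by
  decide +kernel

theorem step_check : ∀ a : Fin 64, good a = true → ∀ b : Fin 64, good b = true → a ≠ b →
    ∃ c : Fin 64, good c = true ∧ ham a c = 1 ∧ ham c b + 1 = ham a b := by
  decide +kernel

end Pool.Agent.Lib.MP_04f01b_co.Model
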