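import Pool.Agent.Lib.MP_04f01b_co.Geometry
import Pool.Agent.Lib.MP_04f01b_co.Model

set_option autoImplicit false
set_option maxRecDepth 100000

namespace Pool.Agent.Lib.MP_04f01b_co

open Model

/-- Coefficients of the six functionals. -/
def coef : Fin 6 → Fin 4 → ℤ :=
  ![![1, 0, 0, 0], ![0, 1, 0, 0], ![0, 0, 1, 0], ![0, 0, 0, 1], ![1, 1, 1, 1], ![1, 1, -1, -1]]

/-- The six functionals `x₁, x₂, x₃, x₄, x₁+x₂+x₃+x₄, x₁+x₂-x₃-x₄`. -/
noncomputable def fn (k : Fin 6) : (Fin 4 → ℝ) →ₗ[ℝ] ℝ where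
  toFun x := ∑ i, (coef k i : ℝ) * x i
  map_add' x y := by simp [mul_add, Finset.sum_add_distrib]
  map_smul' r x := by
    simp only [Pi.smul_apply, smul_eq_mul, RingHom.id_apply, Finset.mul_sum]
    apply Finset.sum_congr rfl
    intro i _
    ring

theorem fn_apply (k : Fin 6) (x : Fin 4 → ℝ) :
    fn k x = coef k 0 * x 0 + coef k 1 * x 1 + coef k 2 * x 2 + coef k 3 * x 3 := by
  show ∑ i, (coef k i : ℝ) * x i = _
  rw [Fin.sum_univ_four]

theorem fn0 (x : Fin 4 → ℝ) : fn 0 x = x 0 := by simp [fn_apply, coef]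
theorem fn1 (x : Fin 4 → ℝ) : fn 1 x = x 1 := by simp [fn_apply, coef]
theorem fn2 (x : Fin 4 → ℝ) : fn 2 x = x 2 := by simp [fn_apply, coef]
theorem fn3 (x : Fin 4 → ℝ) : fn 3 x = x 3 := by simp [fn_apply, coef]
theorem fn4 (x : Fin 4 → ℝ) : fn 4 x = x 0 + x 1 + x 2 + x 3 := by
  simp [fn_apply, coef]
theorem fn5 (x : Fin 4 → ℝ) : fn 5 x = x 0 + x 1 - x 2 - x 3 := by
  simp [fn_apply, coef]; ring

theorem fn_surj (k : Fin 6) : LinearMap.range (fn k) = ⊤ := by
  rw [LinearMap.range_eq_top]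
  intro r
  fin_cases k
  · exact ⟨![r, 0, 0, 0], by show fn 0 _ = r; rw [fn0]; simp⟩
  · exact ⟨![0, r, 0, 0], by show fn 1 _ = r; rw [fn1]; simp⟩
  · exact ⟨![0, 0, r, 0], by show fn 2 _ = r; rw [fn2]; simp⟩
  · exact ⟨![0, 0, 0, r], by show fn 3 _ = r; rw [fn3]; simp⟩
  · exact ⟨![r, 0, 0, 0], by show fn 4 _ = r; rw [fn4]; simp⟩
  · exact ⟨![r, 0, 0, 0], by show fn 5 _ = r; rw [fn5]; simp⟩

/-- A test vector on which all six functionals take different values up to scaling. -/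
theorem fn_ker_injective : Function.Injective fun k : Fin 6 => LinearMap.ker (fn k) := by
  have key : ∀ k l : Fin 6, k ≠ l → ∃ v : Fin 4 → ℤ,
      (coef k 0 * v 0 + coef k 1 * v 1 + coef k 2 * v 2 + coef k 3 * v 3 = 0) ∧
      (coef l 0 * v 0 + coef l 1 * v 1 + coef l 2 * v 2 + coef l 3 * v 3 ≠ 0) := by
    have h : ∀ k l : Fin 6, k ≠ l → ∃ v ∈ ([![1, 0, 0, 0], ![0, 1, 0, 0], ![0, 0, 1, 0],
        ![0, 0, 0, 1], ![1, -1, 0, 0], ![0, 0, 1, -1], ![1, 1, 1, 1],
        ![1, 1, -1, -1]] : List (Fin 4 → ℤ)),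
      (coef k 0 * v 0 + coef k 1 * v 1 + coef k 2 * v 2 + coef k 3 * v 3 = 0) ∧
      (coef l 0 * v 0 + coef l 1 * v 1 + coef l 2 * v 2 + coef l 3 * v 3 ≠ 0) := by
      decide +kernel
    intro k l hkl
    obtain ⟨v, -, hv⟩ := h k l hkl
    exact ⟨v, hv⟩
  intro k l hkl
  by_contra hne
  obtain ⟨v, hv1, hv2⟩ := key k l hne
  have h1 : (fun i => (v i : ℝ)) ∈ LinearMap.ker (fn k) := by
    rw [LinearMap.mem_ker, fn_apply]
    exact_mod_cast hv1
  have h2 : (fun i => (v i : ℝ)) ∈ LinearMap.ker (fn l) := by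
    have : LinearMap.ker (fn k) = LinearMap.ker (fn l) := hkl
    rw [← this]
    exact h1
  rw [LinearMap.mem_ker, fn_apply] at h2
  exact hv2 (by exact_mod_cast h2)

open Classical in
/-- The arrangement `x₁x₂x₃x₄(x₁+x₂+x₃+x₄)(x₁+x₂-x₃-x₄) = 0` in `ℝ^4`. -/
noncomputable def exA : Arrangement 4 where
  hyps := Finset.univ.image fun k : Fin 6 => LinearMap.ker (fn k)
  codim_eq_one := by
    intro H hH
    rw [Finset.mem_image] at hH
    obtain ⟨k, -, rfl⟩ := hH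
    have e := (fn k).quotKerEquivRange
    rw [e.finrank_eq, fn_surj, finrank_top, Module.finrank_self]

theorem mem_hyps (H : Submodule ℝ (Fin 4 → ℝ)) :
    H ∈ exA.hyps ↔ ∃ k : Fin 6, LinearMap.ker (fn k) = H := by
  simp [exA]

theorem ker_mem (k : Fin 6) : LinearMap.ker (fn k) ∈ exA.hyps := (mem_hyps _).2 ⟨k, rfl⟩

theorem card_hyps : exA.hyps.card = 6 := by
  classical
  have : exA.hyps = Finset.univ.image fun k : Fin 6 => LinearMap.ker (fn k) := by
    ext H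
    rw [mem_hyps]
    simp
  rw [this, Finset.card_image_of_injective _ fn_ker_injective]
  simp

theorem inter_eq_bot : (⨅ H ∈ exA.hyps, H) = ⊥ := by
  rw [eq_bot_iff]
  intro x hx
  rw [Submodule.mem_iInf] at hx
  have h : ∀ k : Fin 6, fn k x = 0 := by
    intro k
    have := hx (LinearMap.ker (fn k))
    rw [Submodule.mem_iInf] at this
    exact LinearMap.mem_ker.1 (this (ker_mem k))
  have h0 := h 0
  have h1 := h 1
  have h2 := h 2
  have h3 := h 3
  rw [fn0] at h0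
  rw [fn1] at h1
  rw [fn2] at h2
  rw [fn3] at h3
  rw [Submodule.mem_bot]
  funext i
  fin_cases i
  · exact h0
  · exact h1
  · exact h2
  · exact h3

theorem rank_eq : exA.rank = 4 := by
  unfold Arrangement.rank
  rw [inter_eq_bot]
  have e := Submodule.quotEquivOfEqBot (⊥ : Submodule ℝ (Fin 4 → ℝ)) rfl
  rw [e.finrank_eq]
  simp

theorem irreducible : exA.IsIrreducible := by
  rintro ⟨U, W, hUW, hU, hW, h⟩
  have hcodisj : U ⊔ W = ⊤ := hUW.sup_eq_top
  have hbot : ∀ Y : Submodule ℝ (Fin 4 → ℝ), (∀ k : Fin 6, Y ≤ LinearMap.ker (fn k)) → Y = ⊥ := by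
    intro Y hY
    rw [eq_bot_iff, ← inter_eq_bot]
    refine le_iInf fun H => le_iInf fun hH => ?_
    obtain ⟨k, rfl⟩ := (mem_hyps H).1 hH
    exact hY k
  have hv : (![1, 2, 4, 9] : Fin 4 → ℝ) ∈ U ⊔ W := by rw [hcodisj]; trivial
  obtain ⟨u, hu, w, hw, huw⟩ := Submodule.mem_sup.1 hv
  have e0 : u 0 + w 0 = 1 := by have := congrFun huw 0; simpa using this
  have e1 : u 1 + w 1 = 2 := by have := congrFun huw 1; simpa using this
  have e2 : u 2 + w 2 = 4 := by have := congrFun huw 2; simpa using this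
  have e3 : u 3 + w 3 = 9 := by have := congrFun huw 3; simpa using this
  have hk : ∀ k : Fin 6, (U ≤ LinearMap.ker (fn k) ∧ fn k u = 0) ∨
      (W ≤ LinearMap.ker (fn k) ∧ fn k w = 0) := by
    intro k
    rcases h _ (ker_mem k) with h | h
    · exact Or.inl ⟨h, LinearMap.mem_ker.1 (h hu)⟩
    · exact Or.inr ⟨h, LinearMap.mem_ker.1 (h hw)⟩
  have k0 := hk 0
  have k1 := hk 1
  have k2 := hk 2
  have k3 := hk 3
  have k4 := hk 4
  have k5 := hk 5
  rw [fn0, fn0] at k0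
  rw [fn1, fn1] at k1
  rw [fn2, fn2] at k2
  rw [fn3, fn3] at k3
  rw [fn4, fn4] at k4
  rw [fn5, fn5] at k5
  rcases k0 with ⟨a0, b0⟩ | ⟨a0, b0⟩ <;> rcases k1 with ⟨a1, b1⟩ | ⟨a1, b1⟩ <;>
    rcases k2 with ⟨a2, b2⟩ | ⟨a2, b2⟩ <;> rcases k3 with ⟨a3, b3⟩ | ⟨a3, b3⟩ <;>
    rcases k4 with ⟨a4, b4⟩ | ⟨a4, b4⟩ <;> rcases k5 with ⟨a5, b5⟩ | ⟨a5, b5⟩ <;>
    first
      | (exfalso; linarith)
      | (refine hU (hbot U fun k => ?_); fin_cases k <;> assumption)
      | (refine hW (hbot W fun k => ?_); fin_cases k <;> assumption)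

/-- Integer coordinates of a point in the chamber with code `a`. -/
def pt (a : Fin 64) : Fin 4 → ℤ :=
  let s : ℕ → ℤ := fun k => if bit a k then 1 else -1
  let m : ℕ → Bool → ℤ := fun k t => if bit a k == t then 5 else 1
  if bit a 4 == bit a 5 then ![s 0 * m 0 (bit a 4), s 1 * m 1 (bit a 4), s 2, s 3]
  else ![s 0, s 1, s 2 * m 2 (bit a 4), s 3 * m 3 (bit a 4)]

theorem pt_check : ∀ a : Fin 64, good a = true → ∀ k : Fin 6,
    (coef k 0 * pt a 0 + coef k 1 * pt a 1 + coef k 2 * pt a 2 + coef k 3 * pt a 3 ≠ 0) ∧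
    (0 < coef k 0 * pt a 0 + coef k 1 * pt a 1 + coef k 2 * pt a 2 + coef k 3 * pt a 3 ↔
      bit a k.val = true) := by
  decide +kernel

/-- The vertices of the model graph. -/
abbrev GV : Type := {a : Fin 64 // good a = true}

theorem fn_pt (a : GV) (k : Fin 6) : fn k (fun i => (pt a.1 i : ℝ)) =
    ((coef k 0 * pt a.1 0 + coef k 1 * pt a.1 1 + coef k 2 * pt a.1 2 +
      coef k 3 * pt a.1 3 : ℤ) : ℝ) := by
  rw [fn_apply]
  push_cast
  ring

/-- The point of the complement with code `a`. -/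
noncomputable def point (a : GV) : exA.complement :=
  ⟨fun i => (pt a.1 i : ℝ), by
    intro H hH
    obtain ⟨k, rfl⟩ := (mem_hyps H).1 hH
    rw [LinearMap.mem_ker, fn_pt]
    exact_mod_cast (pt_check a.1 a.2 k).1⟩

theorem point_sign (a : GV) (k : Fin 6) : 0 < fn k (point a) ↔ bit a.1 k.val = true := by
  rw [← (pt_check a.1 a.2 k).2]
  show 0 < fn k (fun i => (pt a.1 i : ℝ)) ↔ _
  rw [fn_pt]
  exact_mod_cast Iff.rfl

/-- The chamber with code `a`. -/
noncomputable def cham (a : GV) : exA.Chamber := (point a : exA.Chamber)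

theorem bits_inj : ∀ a b : Fin 64, (∀ k : Fin 6, bit a k.val = bit b k.val) → a = b := by
  decide +kernel

theorem cham_injective : Function.Injective cham := by
  intro a b hab
  apply Subtype.ext
  apply bits_inj
  intro k
  have h := sign_eq exA (ker_mem k) rfl hab
  rw [point_sign, point_sign] at h
  exact Bool.eq_iff_iff.2 h

theorem exists_code (b0 b1 b2 b3 b4 b5 : Bool) : ∃ a : Fin 64,
    bit a 0 = b0 ∧ bit a 1 = b1 ∧ bit a 2 = b2 ∧ bit a 3 = b3 ∧ bit a 4 = b4 ∧ bit a 5 = b5 := by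
  refine ⟨⟨b0.toNat + 2 * b1.toNat + 4 * b2.toNat + 8 * b3.toNat + 16 * b4.toNat +
    32 * b5.toNat, ?_⟩, ?_⟩
  · cases b0 <;> cases b1 <;> cases b2 <;> cases b3 <;> cases b4 <;> cases b5 <;> decide
  · cases b0 <;> cases b1 <;> cases b2 <;> cases b3 <;> cases b4 <;> cases b5 <;> decide

theorem cham_surjective : Function.Surjective cham := by
  classical
  intro C
  obtain ⟨x, rfl⟩ := ConnectedComponents.surjective_coe C
  obtain ⟨a, h0, h1, h2, h3, h4, h5⟩ := exists_code (decide (0 < fn 0 x)) (decide (0 < fn 1 x))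
    (decide (0 < fn 2 x)) (decide (0 < fn 3 x)) (decide (0 < fn 4 x)) (decide (0 < fn 5 x))
  have n0 := ne_zero_of_mem exA (ker_mem 0) rfl x
  have n1 := ne_zero_of_mem exA (ker_mem 1) rfl x
  have n2 := ne_zero_of_mem exA (ker_mem 2) rfl x
  have n3 := ne_zero_of_mem exA (ker_mem 3) rfl x
  have n4 := ne_zero_of_mem exA (ker_mem 4) rfl x
  have n5 := ne_zero_of_mem exA (ker_mem 5) rfl x
  have hgood : good a = true := by
    unfold good
    rw [h0, h1, h2, h3, h4, h5]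
    rw [fn0] at *
    rw [fn1] at *
    rw [fn2] at *
    rw [fn3] at *
    rw [fn4] at *
    rw [fn5] at *
    rcases lt_or_gt_of_ne n0 with g0 | g0 <;> rcases lt_or_gt_of_ne n1 with g1 | g1 <;>
      rcases lt_or_gt_of_ne n2 with g2 | g2 <;> rcases lt_or_gt_of_ne n3 with g3 | g3 <;>
      rcases lt_or_gt_of_ne n4 with g4 | g4 <;> rcases lt_or_gt_of_ne n5 with g5 | g5 <;>
      first
        | (exfalso; linarith)
        | simp [g0, g1, g2, g3, g4, g5, not_lt_of_gt]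
  refine ⟨⟨a, hgood⟩, ?_⟩
  apply same_component
  intro H hH
  obtain ⟨k, rfl⟩ := (mem_hyps H).1 hH
  refine ⟨fn k, rfl, ?_⟩
  rw [point_sign]
  fin_cases k
  · show bit a 0 = true ↔ _; rw [h0]; simp
  · show bit a 1 = true ↔ _; rw [h1]; simp
  · show bit a 2 = true ↔ _; rw [h2]; simp
  · show bit a 3 = true ↔ _; rw [h3]; simp
  · show bit a 4 = true ↔ _; rw [h4]; simp
  · show bit a 5 = true ↔ _; rw [h5]; simp

theorem ham_unique : ∀ c0 c1 c2 c3 c4 c5 : Bool,
    (∃! k : Fin 6, ![c0, c1, c2, c3, c4, c5] k = true) ↔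
      c0.toNat + c1.toNat + c2.toNat + c3.toNat + c4.toNat + c5.toNat = 1 := by
  intro c0 c1 c2 c3 c4 c5
  unfold ExistsUnique
  revert c0 c1 c2 c3 c4 c5
  decide +kernel

theorem bit_vec (a b : Fin 64) (k : Fin 6) :
    ![(bit a 0 ^^ bit b 0), (bit a 1 ^^ bit b 1), (bit a 2 ^^ bit b 2), (bit a 3 ^^ bit b 3),
      (bit a 4 ^^ bit b 4), (bit a 5 ^^ bit b 5)] k = (bit a k.val ^^ bit b k.val) := by
  fin_cases k <;> rfl

theorem adj_iff (a b : GV) : exA.topeGraph.Adj (cham a) (cham b) ↔ ham a.1 b.1 = 1 := by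
  unfold ham
  rw [← ham_unique]
  have hsep : ∀ k : Fin 6, exA.Separates (LinearMap.ker (fn k)) (cham a) (cham b) ↔
      (bit a.1 k.val ^^ bit b.1 k.val) = true := by
    intro k
    unfold cham
    rw [separates_iff exA (ker_mem k) rfl, point_sign, point_sign]
    cases bit a.1 k.val <;> cases bit b.1 k.val <;> simp
  constructor
  · rintro ⟨H, ⟨hH, hs⟩, hu⟩
    obtain ⟨k, rfl⟩ := (mem_hyps H).1 hH
    refine ⟨k, ?_, ?_⟩
    · show _ = true
      rw [bit_vec]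
      exact (hsep k).1 hs
    · intro l hl
      have hl' : (bit a.1 l.val ^^ bit b.1 l.val) = true := by rw [← bit_vec]; exact hl
      exact fn_ker_injective (hu _ ⟨ker_mem l, (hsep l).2 hl'⟩)
  · rintro ⟨k, hk, hu⟩
    have hk' : (bit a.1 k.val ^^ bit b.1 k.val) = true := by rw [← bit_vec]; exact hk
    refine ⟨LinearMap.ker (fn k), ⟨ker_mem k, (hsep k).2 hk'⟩, ?_⟩
    rintro H ⟨hH, hs⟩
    obtain ⟨l, rfl⟩ := (mem_hyps H).1 hH
    have := hu l (by
      show _ = true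
      rw [bit_vec]
      exact (hsep l).1 hs)
    rw [this]

end Pool.Agent.Lib.MP_04f01b_co
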