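import Pool.Agent.Lib.MP_04f01b_co.Example

set_option autoImplicit false
set_option maxRecDepth 100000

namespace Pool.Agent.Lib.MP_04f01b_co

open Model Polynomial

theorem ham_zero : ∀ a b : Fin 64, ham a b = 0 → a = b := by decide +kernel

theorem ham_self : ∀ a : Fin 64, ham a a = 0 := by decide +kernel

theorem ham_symm : ∀ a b : Fin 64, ham a b = ham b a := by decide +kernel

theorem xor_tri : ∀ x y z : Bool, (x ^^ z).toNat ≤ (x ^^ y).toNat + (y ^^ z).toNat := by decide

theorem ham_tri (a b c : Fin 64) : ham a c ≤ ham a b + ham b c := by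
  unfold ham
  have h0 := xor_tri (bit a 0) (bit b 0) (bit c 0)
  have h1 := xor_tri (bit a 1) (bit b 1) (bit c 1)
  have h2 := xor_tri (bit a 2) (bit b 2) (bit c 2)
  have h3 := xor_tri (bit a 3) (bit b 3) (bit c 3)
  have h4 := xor_tri (bit a 4) (bit b 4) (bit c 4)
  have h5 := xor_tri (bit a 5) (bit b 5) (bit c 5)
  omega

/-- The model of the tope graph. -/
def MG : SimpleGraph GV where
  Adj a b := ham a.1 b.1 = 1
  symm := ⟨fun a b h => by rw [ham_symm]; exact h⟩
  loopless := ⟨fun a h => by rw [ham_self] at h; exact absurd h (by decide)⟩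

/-- The tope graph is isomorphic to the model. -/
noncomputable def isoMG : MG ≃g exA.topeGraph where
  toEquiv := Equiv.ofBijective cham ⟨cham_injective, cham_surjective⟩
  map_rel_iff' := by
    intro a b
    exact adj_iff a b

theorem MG_dist (a b : GV) : MG.dist a b = ham a.1 b.1 := by
  apply dist_eq_of_metric MG (fun a b => ham a.1 b.1)
  · intro x y h
    exact Subtype.ext (ham_zero _ _ h)
  · intro x
    exact ham_self _
  · intro x y z h
    have h1 : ham x.1 y.1 = 1 := h
    have := ham_tri x.1 y.1 z.1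
    show ham x.1 z.1 ≤ ham y.1 z.1 + 1
    omega
  · intro x y h
    obtain ⟨c, hc, h1, h2⟩ := step_check x.1 x.2 y.1 y.2 (fun h' => h (Subtype.ext h'))
    exact ⟨⟨c, hc⟩, h1, h2⟩

/-- The numerators of the weights. -/
noncomputable def wp (c : ℕ) : ℚ[X] := ∑ i ∈ Finset.range 5, C ((wc c i : ℤ) : ℚ) * X ^ i

/-- The common denominator. -/
noncomputable def dp : ℚ[X] := (cyclotomic 2 ℚ) ^ 4 * cyclotomic 3 ℚ * cyclotomic 8 ℚ

theorem wc_zero (c m : ℕ) (h : 5 ≤ m) : wc c m = 0 := by
  unfold wc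
  split <;> omega

theorem wp_coeff (c m : ℕ) : (wp c).coeff m = ((wc c m : ℤ) : ℚ) := by
  unfold wp
  rw [finsetSum_coeff]
  simp only [coeff_C_mul_X_pow]
  by_cases h : m < 5
  · rw [Finset.sum_eq_single m]
    · simp
    · intro b _ hb
      rw [if_neg (Ne.symm hb)]
    · intro hm
      exact absurd (Finset.mem_range.2 h) hm
  · rw [wc_zero c m (by omega)]
    rw [Finset.sum_eq_zero]
    · simp
    · intro b hb
      rw [if_neg]
      rw [Finset.mem_range] at hb
      omega

theorem cyclotomic_eight : cyclotomic 8 ℚ = X ^ 4 + 1 := by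
  have h := cyclotomic_prime_pow_eq_geom_sum (R := ℚ) (p := 2) (n := 2) Nat.prime_two
  rw [show (8 : ℕ) = 2 ^ (2 + 1) by norm_num, h]
  simp [Finset.sum_range_succ]
  ring

theorem dp_eq : dp = X ^ 10 + 5 * X ^ 9 + 11 * X ^ 8 + 14 * X ^ 7 + 12 * X ^ 6 + 10 * X ^ 5 +
    12 * X ^ 4 + 14 * X ^ 3 + 11 * X ^ 2 + 5 * X + 1 := by
  unfold dp
  rw [cyclotomic_two, cyclotomic_three, cyclotomic_eight]
  ring

theorem dp_eq' : dp = ∑ i ∈ Finset.range 11, C ((dc i : ℤ) : ℚ) * X ^ i := by
  rw [dp_eq]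
  simp [Finset.sum_range_succ, dc]
  ring

theorem dc_zero (m : ℕ) (h : 11 ≤ m) : dc m = 0 := by
  unfold dc
  split <;> omega

theorem dp_coeff (m : ℕ) : dp.coeff m = ((dc m : ℤ) : ℚ) := by
  rw [dp_eq', finsetSum_coeff]
  simp only [coeff_C_mul_X_pow]
  by_cases h : m < 11
  · rw [Finset.sum_eq_single m]
    · simp
    · intro b _ hb
      rw [if_neg (Ne.symm hb)]
    · intro hm
      exact absurd (Finset.mem_range.2 h) hm
  · rw [dc_zero m (by omega)]
    rw [Finset.sum_eq_zero]
    · simp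
    · intro b hb
      rw [if_neg]
      rw [Finset.mem_range] at hb
      omega

theorem ham_le (a b : Fin 64) : ham a b ≤ 6 := by
  unfold ham
  have h : ∀ x : Bool, x.toNat ≤ 1 := by decide
  have h0 := h (bit a 0 ^^ bit b 0)
  have h1 := h (bit a 1 ^^ bit b 1)
  have h2 := h (bit a 2 ^^ bit b 2)
  have h3 := h (bit a 3 ^^ bit b 3)
  have h4 := h (bit a 4 ^^ bit b 4)
  have h5 := h (bit a 5 ^^ bit b 5)
  omega

theorem sum_GV {M : Type} [AddCommMonoid M] (f : Fin 64 → M) :
    ∑ b : GV, f b.1 = ∑ b : Fin 64, if good b = true then f b else 0 := by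
  rw [← Finset.sum_filter]
  exact (Finset.sum_subtype (Finset.univ.filter fun b : Fin 64 => good b = true)
    (by intro x; simp) f).symm

theorem poly_identity (a : GV) :
    ∑ b : GV, (X : ℚ[X]) ^ (ham a.1 b.1) * wp (cls b.1) = dp := by
  ext m
  rw [finsetSum_coeff, dp_coeff]
  simp only [coeff_X_pow_mul', wp_coeff]
  rw [sum_GV (fun b => if ham a.1 b ≤ m then ((wc (cls b) (m - ham a.1 b) : ℤ) : ℚ) else 0)]
  by_cases h : m < 11
  · rw [← weight_check a.1 a.2 ⟨m, h⟩]
    push_cast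
    apply Finset.sum_congr rfl
    intro b _
    by_cases h1 : good b = true <;> by_cases h2 : ham a.1 b ≤ m <;> simp [h1, h2]
  · rw [dc_zero m (by omega), Finset.sum_eq_zero]
    · simp
    · intro b _
      have := ham_le a.1 b
      rw [wc_zero _ _ (by omega)]
      simp

theorem dp_ne_zero : dp ≠ 0 := by
  unfold dp
  exact mul_ne_zero (mul_ne_zero (pow_ne_zero _ (cyclotomic_ne_zero _ _))
    (cyclotomic_ne_zero _ _)) (cyclotomic_ne_zero _ _)

theorem mag_eq : exA.mag = algebraMap ℚ[X] (RatFunc ℚ) (∑ b : GV, wp (cls b.1)) /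
      algebraMap ℚ[X] (RatFunc ℚ) dp ∨ exA.mag = 0 := by
  have h1 : exA.mag = ∑ x : GV, ∑ y : GV, (zMatrix MG)⁻¹ x y := magnitude_iso _ _ isoMG
  have hd : algebraMap ℚ[X] (RatFunc ℚ) dp ≠ 0 := by
    rw [Ne, FaithfulSMul.algebraMap_eq_zero_iff]
    exact dp_ne_zero
  have h2 := sum_inv_entries (zMatrix MG)
    (fun b => algebraMap ℚ[X] (RatFunc ℚ) (wp (cls b.1)) / algebraMap ℚ[X] (RatFunc ℚ) dp)
    (by
      intro a
      have h3 := congrArg (algebraMap ℚ[X] (RatFunc ℚ)) (poly_identity a)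
      rw [map_sum] at h3
      simp only [zMatrix, Matrix.of_apply, MG_dist]
      rw [← div_self hd, eq_div_iff hd, Finset.sum_mul]
      conv_rhs => rw [← h3]
      apply Finset.sum_congr rfl
      intro b _
      rw [map_mul, map_pow, RatFunc.algebraMap_X]
      field_simp)
  rw [← h1] at h2
  rcases h2 with h2 | h2
  · left
    rw [h2, map_sum, Finset.sum_div]
  · right
    exact h2

theorem not_dvd : ¬ (cyclotomic exA.hyps.card ℚ ∣ exA.mag.denom) := by
  rw [card_hyps]
  intro h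
  have hcop : ∀ n : ℕ, n ≠ 6 → IsCoprime (cyclotomic 6 ℚ) (cyclotomic n ℚ) := by
    intro n hn
    exact cyclotomic.isCoprime_rat (Ne.symm hn)
  have hcop' : IsCoprime (cyclotomic 6 ℚ) dp := by
    unfold dp
    exact IsCoprime.mul_right (IsCoprime.mul_right (IsCoprime.pow_right (hcop 2 (by decide)))
      (hcop 3 (by decide))) (hcop 8 (by decide))
  have hnu : ¬ IsUnit (cyclotomic 6 ℚ) := by
    have := cyclotomic.irreducible_rat (n := 6) (by decide)
    exact this.not_isUnit
  rcases mag_eq with hm | hm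
  · rw [hm] at h
    have h2 : cyclotomic 6 ℚ ∣ dp := h.trans (RatFunc.denom_div_dvd _ _)
    exact hnu (hcop'.isUnit_of_dvd' dvd_rfl h2)
  · rw [hm, RatFunc.denom_zero] at h
    exact hnu (isUnit_of_dvd_one h)

/-- The number of neighbours of a vertex of the model graph. -/
def ndeg (a : Fin 64) : ℕ :=
  (Finset.univ.filter fun b : Fin 64 => good b = true ∧ ham a b = 1).card

theorem ncard_neighbor (a : GV) : (MG.neighborSet a).ncard = ndeg a.1 := by
  unfold ndeg
  rw [← Set.ncard_coe_finset]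
  have : (MG.neighborSet a) = Subtype.val ⁻¹'
      (((Finset.univ.filter fun b : Fin 64 => good b = true ∧ ham a.1 b = 1) : Finset (Fin 64)) :
        Set (Fin 64)) := by
    ext b
    simp only [SimpleGraph.mem_neighborSet, Set.mem_preimage, Finset.coe_filter,
      Finset.mem_univ, true_and, Set.mem_ofPred_eq]
    exact ⟨fun h => ⟨b.2, h⟩, fun h => h.2⟩
  rw [this, Set.ncard_preimage_of_injective_subset_range Subtype.val_injective]
  intro b hb
  simp only [Finset.coe_filter, Finset.mem_univ, true_and, Set.mem_ofPred_eq] at hb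
  exact ⟨⟨b, hb.1⟩, rfl⟩

theorem not_transitive : ¬ IsVertexTransitive exA.topeGraph := by
  intro h
  have hg1 : good 49 = true := by decide
  have hg2 : good 51 = true := by decide
  obtain ⟨φ, hφ⟩ := h (isoMG ⟨49, hg1⟩) (isoMG ⟨51, hg2⟩)
  let ψ : MG ≃g MG := (isoMG.trans φ).trans isoMG.symm
  have hψ : ψ ⟨49, hg1⟩ = ⟨51, hg2⟩ := by
    show isoMG.symm (φ (isoMG ⟨49, hg1⟩)) = _
    rw [hφ]
    simp
  have hn : (MG.neighborSet (ψ ⟨49, hg1⟩)).ncard = (MG.neighborSet ⟨49, hg1⟩).ncard := by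
    have himg : MG.neighborSet (ψ ⟨49, hg1⟩) = ψ '' (MG.neighborSet ⟨49, hg1⟩) := by
      ext b
      constructor
      · intro hb
        refine ⟨ψ.symm b, ?_, by simp⟩
        have : MG.Adj (ψ ⟨49, hg1⟩) (ψ (ψ.symm b)) := by simpa using hb
        exact ψ.map_rel_iff.1 this
      · rintro ⟨c, hc, rfl⟩
        exact ψ.map_rel_iff.2 hc
    rw [himg, Set.ncard_image_of_injective _ ψ.injective]
  rw [hψ, ncard_neighbor, ncard_neighbor] at hn
  have hdeg : ndeg 51 ≠ ndeg 49 := by decide +kernel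
  exact hdeg hn

end Pool.Agent.Lib.MP_04f01b_co
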