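import Pool.Agent.Lib.MP_04f01b_co.Defs

set_option autoImplicit false

namespace Pool.Agent.Lib.MP_04f01b_co

variable {d : ℕ} (A : Arrangement d)

theorem ne_zero_of_mem {H : Submodule ℝ (Fin d → ℝ)} (hH : H ∈ A.hyps)
    {φ : (Fin d → ℝ) →ₗ[ℝ] ℝ} (hφ : LinearMap.ker φ = H) (x : A.complement) :
    φ x ≠ 0 := by
  intro h0
  exact x.2 H hH (by rw [← hφ, LinearMap.mem_ker]; exact h0)

/-- Points of one chamber lie on the same side of each hyperplane. -/
theorem sign_eq {H : Submodule ℝ (Fin d → ℝ)} (hH : H ∈ A.hyps)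
    {φ : (Fin d → ℝ) →ₗ[ℝ] ℝ} (hφ : LinearMap.ker φ = H) {x y : A.complement}
    (h : (x : A.Chamber) = (y : A.Chamber)) : 0 < φ x ↔ 0 < φ y := by
  have hcont : Continuous fun z : A.complement => φ (z : Fin d → ℝ) := by
    have h1 : Continuous φ := LinearMap.continuous_of_finiteDimensional φ
    exact h1.comp continuous_subtype_val
  have hclopen : IsClopen {z : A.complement | 0 < φ (z : Fin d → ℝ)} := by
    constructor
    · have : {z : A.complement | 0 < φ (z : Fin d → ℝ)} =
          {z : A.complement | 0 ≤ φ (z : Fin d → ℝ)} := by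
        ext z
        constructor
        · intro hz
          exact le_of_lt (show 0 < φ (z : Fin d → ℝ) from hz)
        · intro hz
          exact lt_of_le_of_ne hz (Ne.symm (ne_zero_of_mem A hH hφ z))
      rw [this]
      exact isClosed_le continuous_const hcont
    · exact isOpen_lt continuous_const hcont
  rw [ConnectedComponents.coe_eq_coe] at h
  constructor
  · intro hx
    have := hclopen.connectedComponent_subset (x := x) hx
    exact this (h ▸ mem_connectedComponent)
  · intro hy
    have := hclopen.connectedComponent_subset (x := y) hy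
    exact this (h ▸ mem_connectedComponent)

/-- The hyperplane `ker φ` separates two chambers iff the signs of `φ` on them differ. -/
theorem separates_iff {H : Submodule ℝ (Fin d → ℝ)} (hH : H ∈ A.hyps)
    {φ : (Fin d → ℝ) →ₗ[ℝ] ℝ} (hφ : LinearMap.ker φ = H) (x y : A.complement) :
    A.Separates H (x : A.Chamber) (y : A.Chamber) ↔ ¬ (0 < φ x ↔ 0 < φ y) := by
  constructor
  · intro hs hiff
    obtain ⟨z, hz, hzH⟩ := hs x y rfl rfl
    obtain ⟨a, b, ha, hb, hab, rfl⟩ := hz
    rw [← hφ, LinearMap.mem_ker, map_add, map_smul, map_smul, smul_eq_mul, smul_eq_mul] at hzH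
    have hx := ne_zero_of_mem A hH hφ x
    have hy := ne_zero_of_mem A hH hφ y
    by_cases hp : 0 < φ x
    · have hq := hiff.1 hp
      have h1 : 0 ≤ a * φ x := mul_nonneg ha hp.le
      have h2 : 0 ≤ b * φ y := mul_nonneg hb hq.le
      have h3 : a * φ x = 0 := by linarith
      have h4 : b * φ y = 0 := by linarith
      rcases mul_eq_zero.1 h3 with h | h
      · rcases mul_eq_zero.1 h4 with h' | h'
        · linarith
        · exact hy h'
      · exact hx h
    · have hq : ¬ 0 < φ y := fun h => hp (hiff.2 h)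
      have hx' : φ x < 0 := lt_of_le_of_ne (not_lt.1 hp) hx
      have hy' : φ y < 0 := lt_of_le_of_ne (not_lt.1 hq) hy
      have h1 : a * φ x ≤ 0 := mul_nonpos_of_nonneg_of_nonpos ha hx'.le
      have h2 : b * φ y ≤ 0 := mul_nonpos_of_nonneg_of_nonpos hb hy'.le
      have h3 : a * φ x = 0 := by linarith
      have h4 : b * φ y = 0 := by linarith
      rcases mul_eq_zero.1 h3 with h | h
      · rcases mul_eq_zero.1 h4 with h' | h'
        · linarith
        · exact hy h'
      · exact hx h
  · intro hne x' y' hx' hy'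
    have hx0 := ne_zero_of_mem A hH hφ x'
    have hy0 := ne_zero_of_mem A hH hφ y'
    have h1 := sign_eq A hH hφ hx'
    have h2 := sign_eq A hH hφ hy'
    rw [← h1, ← h2] at hne
    have hopp : (0 < φ x' ∧ φ y' < 0) ∨ (φ x' < 0 ∧ 0 < φ y') := by
      by_cases hp : 0 < φ x'
      · left
        refine ⟨hp, ?_⟩
        by_contra hq
        exact hne ⟨fun _ => lt_of_le_of_ne (not_lt.1 hq) (Ne.symm hy0), fun _ => hp⟩
      · right
        refine ⟨lt_of_le_of_ne (not_lt.1 hp) hx0, ?_⟩
        by_contra hq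
        exact hne ⟨fun h => absurd h hp, fun h => absurd h hq⟩
    rcases hopp with ⟨hp, hq⟩ | ⟨hp, hq⟩
    · have hd : 0 < φ x' - φ y' := by linarith
      refine ⟨(-(φ y') / (φ x' - φ y')) • (x' : Fin d → ℝ) +
        (φ x' / (φ x' - φ y')) • (y' : Fin d → ℝ), ⟨_, _, ?_, ?_, ?_, rfl⟩, ?_⟩
      · exact div_nonneg (by linarith) hd.le
      · exact div_nonneg hp.le hd.le
      · field_simp
        ring
      · rw [← hφ, LinearMap.mem_ker, map_add, map_smul, map_smul, smul_eq_mul, smul_eq_mul]
        field_simp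
        ring
    · have hd : 0 < φ y' - φ x' := by linarith
      refine ⟨((φ y') / (φ y' - φ x')) • (x' : Fin d → ℝ) +
        (-(φ x') / (φ y' - φ x')) • (y' : Fin d → ℝ), ⟨_, _, ?_, ?_, ?_, rfl⟩, ?_⟩
      · exact div_nonneg hq.le hd.le
      · exact div_nonneg (by linarith) hd.le
      · field_simp
        ring
      · rw [← hφ, LinearMap.mem_ker, map_add, map_smul, map_smul, smul_eq_mul, smul_eq_mul]
        field_simp
        ring

/-- Sum of the entries of the inverse: if `Z w = 1` the magnitude is the sum of `w`, provided the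
matrix is invertible, and zero otherwise. -/
theorem sum_inv_entries {V K : Type} [Fintype V] [DecidableEq V] [Field K] (Z : Matrix V V K)
    (w : V → K) (hw : ∀ x, ∑ y, Z x y * w y = 1) :
    (∑ x, ∑ y, Z⁻¹ x y = ∑ x, w x) ∨ (∑ x, ∑ y, Z⁻¹ x y = 0) := by
  by_cases hu : IsUnit Z.det
  · left
    apply Finset.sum_congr rfl
    intro x _
    have h1 : Z.mulVec w = fun _ => 1 := by
      funext x
      exact hw x
    have h2 : Z⁻¹.mulVec (Z.mulVec w) = w := by
      rw [Matrix.mulVec_mulVec, Matrix.nonsing_inv_mul Z hu, Matrix.one_mulVec]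
    rw [h1] at h2
    have h3 := congrFun h2 x
    simpa [Matrix.mulVec, dotProduct] using h3
  · right
    rw [Matrix.nonsing_inv_apply_not_isUnit Z hu]
    simp

theorem dist_iso {V W : Type} (G : SimpleGraph V) (G' : SimpleGraph W) (e : G' ≃g G) (x y : W) :
    G.dist (e x) (e y) = G'.dist x y := by
  rw [SimpleGraph.dist_eq_sInf, SimpleGraph.dist_eq_sInf]
  congr 1
  ext n
  constructor
  · rintro ⟨p, rfl⟩
    refine ⟨(p.map e.symm.toHom).copy (e.symm_apply_apply x) (e.symm_apply_apply y), ?_⟩
    simp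
  · rintro ⟨p, rfl⟩
    exact ⟨p.map e.toHom, by simp⟩

/-- The magnitude is invariant under graph isomorphisms. -/
theorem magnitude_iso {V W : Type} [Finite V] [Fintype W] [DecidableEq W] (G : SimpleGraph V)
    (G' : SimpleGraph W) (e : G' ≃g G) :
    magnitude G = ∑ x, ∑ y, (zMatrix G')⁻¹ x y := by
  unfold magnitude
  letI := Fintype.ofFinite V
  letI := Classical.decEq V
  have hz : zMatrix G' = (zMatrix G).submatrix e.toEquiv e.toEquiv := by
    ext x y
    simp only [zMatrix, Matrix.of_apply, Matrix.submatrix_apply]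
    rw [← dist_iso G G' e x y]
    rfl
  rw [hz, Matrix.inv_submatrix_equiv]
  simp only [Matrix.submatrix_apply]
  rw [Equiv.sum_comp e.toEquiv (fun x => ∑ y, (zMatrix G)⁻¹ x (e.toEquiv y))]
  apply Finset.sum_congr rfl
  intro x _
  rw [Equiv.sum_comp e.toEquiv (fun y => (zMatrix G)⁻¹ x y)]

/-- For a connected graph the matrix `Z_G(q)` is invertible, since `Z_G(0)` is the identity. -/
theorem isUnit_det_zMatrix {V : Type} [Fintype V] [DecidableEq V] (G : SimpleGraph V)
    (hG : G.Connected) : IsUnit (zMatrix G).det := by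
  rw [isUnit_iff_ne_zero]
  let M : Matrix V V (Polynomial ℚ) := Matrix.of fun x y => Polynomial.X ^ G.dist x y
  have h1 : zMatrix G = M.map (algebraMap (Polynomial ℚ) (RatFunc ℚ)) := by
    ext x y
    simp [zMatrix, M, RatFunc.algebraMap_X]
  have h2 : M.map (Polynomial.evalRingHom (0 : ℚ)) = 1 := by
    ext x y
    by_cases hxy : x = y
    · subst hxy
      simp [M]
    · have : G.dist x y ≠ 0 := fun h => hxy (hG.dist_eq_zero_iff.1 h)
      simp [M, hxy, this]
  have h3 : M.det ≠ 0 := by
    intro h
    have h4 := RingHom.map_det (Polynomial.evalRingHom (0 : ℚ)) M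
    rw [h, RingHom.mapMatrix_apply, h2, Matrix.det_one, map_zero] at h4
    exact zero_ne_one h4
  have h5 : (zMatrix G).det = algebraMap (Polynomial ℚ) (RatFunc ℚ) M.det := by
    rw [h1, RingHom.map_det, RingHom.mapMatrix_apply]
  rw [h5, Ne, FaithfulSMul.algebraMap_eq_zero_iff]
  exact h3

/-- Recognising the graph metric. -/
theorem dist_eq_of_metric {V : Type} (G : SimpleGraph V) (h : V → V → ℕ)
    (h0 : ∀ x y, h x y = 0 → x = y) (hs : ∀ x, h x x = 0)
    (hadj : ∀ x y z, G.Adj x y → h x z ≤ h y z + 1)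
    (hstep : ∀ x y, x ≠ y → ∃ z, G.Adj x z ∧ h z y + 1 = h x y) (x y : V) :
    G.dist x y = h x y := by
  have hle : ∀ n x y, h x y = n → ∃ p : G.Walk x y, p.length = n := by
    intro n
    induction n with
    | zero =>
      intro x y hxy
      obtain rfl := h0 x y hxy
      exact ⟨SimpleGraph.Walk.nil, rfl⟩
    | succ n ih =>
      intro x y hxy
      have hne : x ≠ y := by
        rintro rfl
        rw [hs] at hxy
        omega
      obtain ⟨z, hz, hzy⟩ := hstep x y hne
      obtain ⟨p, hp⟩ := ih z y (by omega)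
      exact ⟨SimpleGraph.Walk.cons hz p, by simp [hp]⟩
  have hge : ∀ x y (p : G.Walk x y), h x y ≤ p.length := by
    intro x y p
    induction p with
    | nil => simp [hs]
    | cons hadj' p ih =>
      have := hadj _ _ ‹V› hadj'
      simp only [SimpleGraph.Walk.length_cons]
      omega
  obtain ⟨p, hp⟩ := hle _ x y rfl
  apply le_antisymm
  · rw [← hp]
    exact SimpleGraph.dist_le p
  · obtain ⟨q, hq⟩ := (SimpleGraph.Walk.reachable p).exists_walk_length_eq_dist
    rw [← hq]
    exact hge x y q

end Pool.Agent.Lib.MP_04f01b_co
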